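import Pool.Agent.W792.GK.Stm

/-!
GK-LAW: equality in law of the moments of i.i.d. potentials.
-/

namespace Pool.Agent.W135.GK.Law

open MeasureTheory Pool.Agent.W792.GK

noncomputable section

lemma zero_mem_nb {Γ : Type} [AddCommGroup Γ] (h : Γ →₀ ℂ) (n : ℕ) : (0 : Γ) ∈ nb h n := by
  induction n with
  | zero => simp [nb]
  | succ n ih => simp [nb, ih]

lemma nb_succ_of_mem {Γ : Type} [AddCommGroup Γ] (h : Γ →₀ ℂ) (n : ℕ) (x y : Γ)
    (hx : x ∈ nb h n) (hy : y ∈ h.support) : x - y ∈ nb h (n + 1) := by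
  classical
  simp only [nb, Finset.mem_union, Finset.mem_image, Finset.mem_product]
  exact Or.inr ⟨(x, y), ⟨hx, hy⟩, rfl⟩

lemma nb_mono {Γ : Type} [AddCommGroup Γ] (h : Γ →₀ ℂ) {m n : ℕ} (hmn : m ≤ n) :
    nb h m ⊆ nb h n := by
  classical
  induction n, hmn using Nat.le_induction with
  | base => exact Finset.Subset.refl _
  | succ n _ ih =>
    refine ih.trans ?_
    simp only [nb]
    exact Finset.subset_union_left

/-- Locality of the iterates. -/
lemma iter_local {Γ : Type} [AddCommGroup Γ] (h : Γ →₀ ℂ) (n : ℕ) (w w' : Γ → ℝ)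
    (hw : ∀ x ∈ nb h n, w x = w' x) (u : Γ → ℂ) (m : ℕ) :
    ∀ k, m + k ≤ n → ∀ x ∈ nb h k, (stp h w)^[m] u x = (stp h w')^[m] u x := by
  induction m with
  | zero => intro k _ x _; rfl
  | succ m ih =>
    intro k hk x hx
    rw [Function.iterate_succ_apply', Function.iterate_succ_apply']
    have h1 : w x = w' x := hw x (nb_mono h (by omega) hx)
    have h2 : (stp h w)^[m] u x = (stp h w')^[m] u x := ih k (by omega) x hx
    have h3 : ∀ y ∈ h.support, (stp h w)^[m] u (x - y) = (stp h w')^[m] u (x - y) := by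
      intro y hy
      exact ih (k + 1) (by omega) (x - y) (nb_succ_of_mem h k x y hx hy)
    have h4 : (h.sum fun y c => c * (stp h w)^[m] u (x - y))
        = h.sum fun y c => c * (stp h w')^[m] u (x - y) := by
      unfold Finsupp.sum
      refine Finset.sum_congr rfl fun y hy => ?_
      show h y * _ = h y * _
      rw [h3 y hy]
    show (h.sum fun y c => c * (stp h w)^[m] u (x - y)) + (w x : ℂ) * (stp h w)^[m] u x
      = (h.sum fun y c => c * (stp h w')^[m] u (x - y)) + (w' x : ℂ) * (stp h w')^[m] u x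
    rw [h1, h2, h4]

lemma mom_local {Γ : Type} [AddCommGroup Γ] (h : Γ →₀ ℂ) (n : ℕ) (w w' : Γ → ℝ)
    (hw : ∀ x ∈ nb h n, w x = w' x) (m : ℕ) (hm : m ≤ n) : mom h w m = mom h w' m := by
  unfold mom
  exact iter_local h n w w' hw _ m 0 (by omega) 0 (zero_mem_nb h 0)

lemma iter_meas {Ω : Type} [MeasurableSpace Ω] {Γ : Type} [AddCommGroup Γ] (h : Γ →₀ ℂ)
    (W : Ω → Γ → ℝ) (hW : ∀ x, Measurable fun ω => W ω x) (u : Γ → ℂ) (m : ℕ) :
    ∀ x, Measurable fun ω => (stp h (W ω))^[m] u x := by
  induction m with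
  | zero => intro x; exact measurable_const
  | succ m ih =>
    intro x
    simp only [Function.iterate_succ_apply']
    have h1 : (fun ω => stp h (W ω) ((stp h (W ω))^[m] u) x)
        = fun ω => (∑ y ∈ h.support, h y * (stp h (W ω))^[m] u (x - y))
          + ((W ω x : ℝ) : ℂ) * (stp h (W ω))^[m] u x := by
      funext ω
      rfl
    rw [h1]
    refine Measurable.add (Finset.measurable_sum _ fun y _ => (ih (x - y)).const_mul _) ?_
    exact (Complex.measurable_ofReal.comp (hW x)).mul (ih x)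

lemma mom_meas {Ω : Type} [MeasurableSpace Ω] {Γ : Type} [AddCommGroup Γ] (h : Γ →₀ ℂ)
    (W : Ω → Γ → ℝ) (hW : ∀ x, Measurable fun ω => W ω x) (m : ℕ) :
    Measurable fun ω => mom h (W ω) m := by
  unfold mom
  exact iter_meas h W hW _ m 0

open Classical in
/-- Extension by zero. -/
def ext {Γ : Type} (S : Finset Γ) (w : S → ℝ) (x : Γ) : ℝ := if hx : x ∈ S then w ⟨x, hx⟩ else 0

lemma ext_meas {Γ : Type} (S : Finset Γ) (x : Γ) : Measurable fun w : S → ℝ => ext S w x := by
  unfold ext
  by_cases hx : x ∈ S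
  · simp only [hx, dif_pos]
    exact measurable_pi_apply _
  · simp only [hx, dif_neg, not_false_eq_true]
    exact measurable_const

lemma ext_mem {Γ : Type} (S : Finset Γ) (w : S → ℝ) (x : Γ) (hx : x ∈ S) :
    ext S w x = w ⟨x, hx⟩ := by
  unfold ext
  rw [dif_pos hx]

/-- GK-LAW. -/
theorem main : Pool.Agent.W792.GK.S_MOM → Pool.Agent.W792.GK.S_LAW := by
  intro hM Γ₀ Γ _ _ _ _ φ h n hinj ν _ c hc F hF
  set S := nb h n with hS
  let Φ : (S → ℝ) → ℝ := fun w => F (fun m => mom h (fun x => c (ext S w x)) m)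
  have hΦ : Measurable Φ := by
    refine hF.comp ?_
    rw [measurable_pi_iff]
    intro m
    exact mom_meas h (fun (w : S → ℝ) x => c (ext S w x))
      (fun x => hc.comp (ext_meas S x)) m
  have hL : ∀ v : Γ → ℝ, F (fun m => mom (h.mapDomain φ) (fun x => c (v x)) m)
      = Φ (fun x => v (φ x)) := by
    intro v
    show F _ = F _
    congr 1
    funext m
    rw [hM Γ₀ Γ φ h n (fun x hx hx0 => hinj x hx 0 (zero_mem_nb h n) (by rw [hx0, map_zero]))
      (fun x => c (v x)) m (by have := m.2; omega)]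
    refine mom_local h n _ _ (fun x hx => ?_) m (by have := m.2; omega)
    rw [ext_mem S _ x hx]
  have hR : ∀ v : Γ₀ → ℝ, F (fun m => mom h (fun x => c (v x)) m) = Φ (fun x => v x) := by
    intro v
    show F _ = F _
    congr 1
    funext m
    refine mom_local h n _ _ (fun x hx => ?_) m (by have := m.2; omega)
    rw [ext_mem S _ x hx]
  simp_rw [hL, hR]
  have hfi : Function.Injective (fun x : S => φ (x : Γ₀)) := by
    intro x y hxy
    exact Subtype.ext (hinj x x.2 y y.2 hxy)
  have e1 : ∫ v, Φ (fun x => v (φ x)) ∂(Measure.infinitePi fun _ : Γ => ν)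
      = ∫ w, Φ w ∂(Measure.infinitePi fun _ : S => ν) := by
    have := Measure.map_infinitePi_infinitePi_of_inj (P := fun _ : Γ => ν) hfi
    rw [← this, integral_map]
    · exact (measurable_pi_lambda _ fun x => measurable_pi_apply _).aemeasurable
    · exact hΦ.aestronglyMeasurable
  have e2 : ∫ v, Φ (fun x => v x) ∂(Measure.infinitePi fun _ : Γ₀ => ν)
      = ∫ w, Φ w ∂(Measure.infinitePi fun _ : S => ν) := by
    have := Measure.map_infinitePi_infinitePi_of_inj (P := fun _ : Γ₀ => ν)
      (f := fun x : S => (x : Γ₀)) Subtype.val_injective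
    rw [← this, integral_map]
    · exact (measurable_pi_lambda _ fun x => measurable_pi_apply _).aemeasurable
    · exact hΦ.aestronglyMeasurable
  rw [e1, e2]

end

end Pool.Agent.W135.GK.Law
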