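import Pool.Agent.W792.GK.Stm

/-!
GK-TI: shift invariance in law of the finite model.
-/

namespace Pool.Agent.W135.GK.Ti

open MeasureTheory Pool.Agent.W792.GK

noncomputable section

/-- Shift of the first coordinate. -/
def sh {Q J : Type} [AddCommGroup Q] (c : Q) : Q × J ≃ Q × J :=
  (Equiv.addRight c).prodCongr (Equiv.refl J)

@[simp] lemma sh_apply {Q J : Type} [AddCommGroup Q] (c : Q) (p : Q × J) :
    sh c p = (p.1 + c, p.2) := rfl

lemma ham_sh {Q J : Type} [AddCommGroup Q] [DecidableEq Q] [DecidableEq J]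
    (κ : Q → ℂ) (A : Matrix J J ℂ) (v : Q × J → ℝ) (c : Q) :
    ham κ A (v ∘ sh c) = (ham κ A v).submatrix (sh c) (sh c) := by
  ext p q
  simp [ham, Matrix.submatrix_apply, Prod.ext_iff]

lemma gr_sh {Q J : Type} [AddCommGroup Q] [Fintype Q] [DecidableEq Q] [Fintype J] [DecidableEq J]
    (κ : Q → ℂ) (A : Matrix J J ℂ) (v : Q × J → ℝ) (c : Q) (z : ℂ) (p : J) (x y : Q) :
    gr κ A (v ∘ sh c) z p x y = gr κ A v z p (x + c) (y + c) := by
  unfold gr
  have h1 : ham κ A (v ∘ sh c) - z • (1 : Matrix (Q × J) (Q × J) ℂ)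
      = (ham κ A v - z • (1 : Matrix (Q × J) (Q × J) ℂ)).submatrix (sh c) (sh c) := by
    rw [ham_sh]
    ext p q
    simp [Matrix.submatrix_apply, Matrix.one_apply, Prod.ext_iff]
  rw [h1, Matrix.inv_submatrix_equiv]
  rfl

/-- GK-TI. -/
theorem main : Pool.Agent.W792.GK.S_TI := by
  intro Q J _ _ _ _ _ κ A p ν _ F z x
  have hmp : MeasurePreserving (MeasurableEquiv.arrowCongr' (sh (J := J) x)
      (MeasurableEquiv.refl ℝ)) (Measure.pi fun _ : Q × J => ν) (Measure.pi fun _ : Q × J => ν) :=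
    measurePreserving_arrowCongr' (fun _ => ν) (fun _ => ν) (sh (J := J) x) (MeasurableEquiv.refl ℝ)
      (fun i => MeasurePreserving.id _)
  unfold pm
  rw [← hmp.integral_comp' (fun v => F (gr κ A v z p x x))]
  congr 1
  funext v
  have h2 : (MeasurableEquiv.arrowCongr' (sh (J := J) x) (MeasurableEquiv.refl ℝ)) v ∘ sh x = v := by
    funext q
    simp only [MeasurableEquiv.arrowCongr', Equiv.arrowCongr', Equiv.arrowCongr,
      MeasurableEquiv.coe_mk, Equiv.coe_fn_mk, Function.comp_apply, Equiv.symm_apply_apply]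
    rfl
  conv_rhs => rw [← h2]
  rw [gr_sh]
  simp

end

end Pool.Agent.W135.GK.Ti
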